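import Pool.Agent.Helper97_BR.Steps

/-!
# Exponentially long best-response paths in budgeted sharing games

The definitions of the game (`Inst`, `Feasible`, `IsState`, `load`, `payoff`, `BRMove`, `HasPath`)
are in `Pool/Agent/Helper97_BR/Defs.lean`.
-/

set_option autoImplicit false

namespace Pool.Agent.Results.MP_2a1065_lc.ExponentialPaths

open Helper97_BR

/-- There are a constant `c > 0` and budgeted sharing games with arbitrarily many agents and sites
(`n = card U` agents, `m = card H` sites), each of which has a best-response path with at least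
`2 ^ (c * (n + m))` moves. -/
theorem result : ∃ c : ℝ, 0 < c ∧ ∀ N : ℕ,
    ∃ (U H : Type) (_ : Fintype U) (_ : DecidableEq U) (_ : Fintype H) (_ : DecidableEq H)
      (I : Inst U H) (L : ℕ),
      N ≤ Fintype.card U + Fintype.card H ∧
      (2 : ℝ) ^ (c * ((Fintype.card U : ℝ) + (Fintype.card H : ℝ))) ≤ (L : ℝ) ∧
      HasPath I L := by
  refine ⟨1 / 24, by norm_num, fun N => ?_⟩
  obtain ⟨L, hL, hP⟩ := hasPath (N + 1)
  refine ⟨Ag (N + 1), Si (N + 1), inferInstance, inferInstance, inferInstance, inferInstance,
    inst (N + 1), L, ?_, ?_, hP⟩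
  · simp only [Fintype.card_prod, Fintype.card_fin]; omega
  · have h1 : ((2 : ℝ) ^ (N + 1 : ℕ)) ≤ (L : ℝ) := by exact_mod_cast hL
    refine le_trans ?_ h1
    rw [← Real.rpow_natCast]
    refine Real.rpow_le_rpow_of_exponent_le (by norm_num) ?_
    simp only [Fintype.card_prod, Fintype.card_fin]
    push_cast
    have : (0 : ℝ) ≤ N := Nat.cast_nonneg N
    linarith

end Pool.Agent.Results.MP_2a1065_lc.ExponentialPaths
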